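import Mathlib

namespace Pool.Agent.MP_026d7f_an

/-- The relative projection constant of a subspace `Y` of a real normed space `X`: the infimum of
the operator norms of the continuous linear maps `P : X → Y` that fix every point of `Y`. -/
noncomputable def projConst {X : Type*} [NormedAddCommGroup X] [NormedSpace ℝ X]
    (Y : Submodule ℝ X) : ℝ :=
  sInf {r : ℝ | ∃ P : X →L[ℝ] Y, (∀ y : Y, P (y : X) = y) ∧ r = ‖P‖}

end Pool.Agent.MP_026d7f_an
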